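import Pool.Agent.H82.RD.Targets
import Pool.Agent.H82.RD.Basic

/-!
# (MDV) all determinants vanish
-/

set_option autoImplicit false

namespace Pool.Agent.H42.RD

open Pool.Agent.H82.RD

/-- product of congruences -/
theorem prod_congr_dvd {R : Type} [CommRing R] {I : Type} [DecidableEq I] (s : Finset I) (ϖ : R)
    (a b : I → R) (h : ∀ i ∈ s, ϖ ∣ a i - b i) : ϖ ∣ ∏ i ∈ s, a i - ∏ i ∈ s, b i := by
  induction s using Finset.induction_on with
  | empty => simp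
  | insert i s hi ih =>
    rw [Finset.prod_insert hi, Finset.prod_insert hi]
    have h1 := h i (Finset.mem_insert_self i s)
    have h2 := ih fun j hj => h j (Finset.mem_insert_of_mem hj)
    have h3 : a i * ∏ j ∈ s, a j - b i * ∏ j ∈ s, b j =
        (a i - b i) * ∏ j ∈ s, a j + b i * (∏ j ∈ s, a j - ∏ j ∈ s, b j) := by ring
    rw [h3]
    exact dvd_add (Dvd.dvd.mul_right h1 _) (Dvd.dvd.mul_left h2 _)

theorem pf_MDV (hDCL : T_DCL) (hDPF : T_DPF) (hDCA : T_DCA) : T_MDV := by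
  classical
  intro q _ v ι S W π den num ζ κ e g D H A B s₀ hM hs₀ hA hB he hNC k hk
  obtain ⟨hπ, hinj, hden, hnum, hW, hg, hqg, hz⟩ := hM
  have hH1 : 1 ≤ H := (hπ s₀ hs₀).1.trans (hπ s₀ hs₀).2
  have hD1 : 1 ≤ D := (hden s₀ hs₀).1.trans (hden s₀ hs₀).2
  have hq1 : 1 < q := (Fact.out : q.Prime).one_lt
  set Q : ℕ := (v + 2) * (2 * D ^ 2) ^ (v + 2) with hQ
  set Bd : ℕ := Q ^ A * (H ^ (v + 2)) ^ B with hBd
  set M : ℕ := B * (A + (v + 1)).choose (v + 1) with hMdef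
  set T : ℕ := A * B / (v + 1) with hT
  set T' : ℕ := (T - 2 * A) / 2 with hT'
  have hNC' : M * Bd < q ^ T' := hNC
  have hQ1 : 1 ≤ Q := by
    rw [hQ]
    exact Nat.mul_pos (by omega) (pow_pos (by positivity) _)
  have hM1 : 1 ≤ M := by
    rw [hMdef]
    exact Nat.mul_pos (by omega) (Nat.choose_pos (by omega))
  have hBd1 : 1 ≤ Bd := by
    rw [hBd]
    exact Nat.mul_pos (pow_pos hQ1 _) (pow_pos (pow_pos hH1 _) _)
  have hT'1 : T' ≠ 0 := by
    intro h0
    rw [h0, pow_zero] at hNC'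
    have : 0 < M * Bd := Nat.mul_pos hM1 hBd1
    omega
  have hTA : 2 * A + 2 ≤ T := by omega
  -- the exponents of the generator
  have hz' : ∀ (c : Cl (v + 1) A B) (i : Fin (v + 2)), ∃ z : ℕ,
    (q : ℤ_[q]) ^ e ∣ (π (k c i) : ℤ_[q]) - (π s₀ : ℤ_[q]) * (g : ℤ_[q]) ^ z ∧
    (q : ℤ_[q]) ^ e ∣ (q : ℤ_[q]) ^ κ * (z : ℤ_[q]) -
      ∑ l, ζ l * (W (k c i) l - W s₀ l) := fun c i => hz _ (hk c i) _ hs₀
  choose z hz1 hz2 using hz'
  set y : Cl (v + 1) A B → Fin (v + 1) → ℤ_[q] :=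
    fun c l => ∑ i, (W (k c i) l - W s₀ l) with hy
  set EE : Cl (v + 1) A B → ℤ_[q] := fun c => ((∏ i, π (k c i) : ℕ) : ℤ_[q]) with hEE
  have hEdvd : ∀ r, (q : ℤ_[q]) ^ e ∣
      EE r - (π s₀ : ℤ_[q]) ^ (v + 2) * (g : ℤ_[q]) ^ (∑ i, z r i) := by
    intro r
    have h1 := prod_congr_dvd Finset.univ ((q : ℤ_[q]) ^ e) (fun i => (π (k r i) : ℤ_[q]))
      (fun i => (π s₀ : ℤ_[q]) * (g : ℤ_[q]) ^ z r i) (fun i _ => hz1 r i)
    have h2 : ∏ i, ((π s₀ : ℤ_[q]) * (g : ℤ_[q]) ^ z r i) =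
        (π s₀ : ℤ_[q]) ^ (v + 2) * (g : ℤ_[q]) ^ (∑ i, z r i) := by
      rw [Finset.prod_mul_distrib, Finset.prod_const, Finset.prod_pow_eq_pow_sum, Finset.card_univ,
        Fintype.card_fin]
    have h3 : EE r = ∏ i, (π (k r i) : ℤ_[q]) := by
      rw [hEE]
      push_cast
      rfl
    rw [h3, ← h2]
    exact h1
  have hydvd : ∀ r, (q : ℤ_[q]) ^ e ∣
      (q : ℤ_[q]) ^ κ * ((∑ i, z r i : ℕ) : ℤ_[q]) - ∑ j, ζ j * y r j := by
    intro r
    have h1 : (q : ℤ_[q]) ^ κ * ((∑ i, z r i : ℕ) : ℤ_[q]) - ∑ j, ζ j * y r j =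
        ∑ i, ((q : ℤ_[q]) ^ κ * (z r i : ℤ_[q]) - ∑ l, ζ l * (W (k r i) l - W s₀ l)) := by
      rw [Finset.sum_sub_distrib, Finset.sum_comm]
      push_cast
      rw [Finset.mul_sum]
      congr 1
      refine Finset.sum_congr rfl fun j _ => ?_
      rw [hy, Finset.mul_sum]
    rw [h1]
    exact Finset.dvd_sum fun i _ => hz2 r i
  have hdet : (q : ℤ_[q]) ^ (M * T') ∣ (im A B y EE).det := by
    refine hDCL q v A B κ e T (M * T') g ζ ((π s₀ : ℤ_[q]) ^ (v + 2)) y EE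
      (fun r => ∑ i, z r i) hA hB hg hqg he ?_ ?_ hEdvd hydvd
    · rw [hT, mul_comm]
      exact Nat.div_mul_le_self _ _
    · have h1 : 2 * T' + 2 * A ≤ T := by omega
      calc 2 * (M * T') + 2 * A * M = M * (2 * T' + 2 * A) := by ring
        _ ≤ M * T := Nat.mul_le_mul_left _ h1
  -- the integer matrix
  set den' : Cl (v + 1) A B → ℕ := fun r => ∏ i, (den (k r i) * den s₀) with hden'
  set num' : Cl (v + 1) A B → Fin (v + 1) → ℤ := fun r l =>
    ∑ i, (num (k r i) l * den s₀ - num s₀ l * den (k r i)) *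
      ∏ i' ∈ Finset.univ.erase i, ((den (k r i') * den s₀ : ℕ) : ℤ) with hnum'
  have hdy : ∀ r l, (den' r : ℤ_[q]) * y r l = ((num' r l : ℤ) : ℤ_[q]) := by
    intro r l
    rw [hden', hy, hnum']
    push_cast
    rw [Finset.mul_sum]
    refine Finset.sum_congr rfl fun i _ => ?_
    rw [← Finset.mul_prod_erase Finset.univ _ (Finset.mem_univ i)]
    have h1 := hW _ (hk r i) l
    have h2 := hW _ hs₀ l
    have h3 : ((den (k r i) : ℤ_[q]) * (den s₀ : ℤ_[q])) * (W (k r i) l - W s₀ l) =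
        (num (k r i) l : ℤ_[q]) * (den s₀ : ℤ_[q]) - (num s₀ l : ℤ_[q]) * (den (k r i) : ℤ_[q]) := by
      rw [← h1, ← h2]
      ring
    rw [mul_right_comm, h3]
  have hdenle : ∀ s ∈ S, den s * den s₀ ≤ D ^ 2 := fun s hs => by
    rw [pow_two]
    exact Nat.mul_le_mul (hden s hs).2 (hden s₀ hs₀).2
  have hden'le : ∀ r, den' r ≤ Q := by
    intro r
    calc den' r ≤ ∏ _i : Fin (v + 2), D ^ 2 :=
          Finset.prod_le_prod (fun _ _ => Nat.zero_le _) fun i _ => hdenle _ (hk r i)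
      _ = (D ^ 2) ^ (v + 2) := by
          rw [Finset.prod_const, Finset.card_univ, Fintype.card_fin]
      _ ≤ (2 * D ^ 2) ^ (v + 2) := Nat.pow_le_pow_left (by omega) _
      _ ≤ Q := by
          rw [hQ]
          exact Nat.le_mul_of_pos_left _ (by omega)
  have hden'pos : ∀ r, den' r ≠ 0 := by
    intro r
    rw [hden']
    refine Finset.prod_ne_zero_iff.2 fun i _ => ?_
    have h1 := (hden _ (hk r i)).1
    have h2 := (hden _ hs₀).1
    exact Nat.mul_ne_zero (by omega) (by omega)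
  have hnum'le : ∀ r l, |num' r l| ≤ (Q : ℤ) := by
    intro r l
    rw [hnum']
    refine (Finset.abs_sum_le_sum_abs _ _).trans ?_
    have h1 : ∀ i : Fin (v + 2), |(num (k r i) l * den s₀ - num s₀ l * den (k r i)) *
        ∏ i' ∈ Finset.univ.erase i, ((den (k r i') * den s₀ : ℕ) : ℤ)| ≤
        ((2 * D ^ 2) ^ (v + 2) : ℕ) := by
      intro i
      rw [abs_mul, Finset.abs_prod]
      have h2 : |num (k r i) l * den s₀ - num s₀ l * den (k r i)| ≤ ((2 * D ^ 2 : ℕ) : ℤ) := by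
        have ha := hnum _ (hk r i) l
        have hb := hnum _ hs₀ l
        have hc : ((den s₀ : ℕ) : ℤ) ≤ D := by exact_mod_cast (hden s₀ hs₀).2
        have hd : ((den (k r i) : ℕ) : ℤ) ≤ D := by exact_mod_cast (hden _ (hk r i)).2
        have hD0 : (0 : ℤ) ≤ D := by positivity
        refine (abs_sub _ _).trans ?_
        rw [abs_mul, abs_mul, Nat.abs_cast, Nat.abs_cast]
        have he1 : |num (k r i) l| * (den s₀ : ℤ) ≤ D * D :=
          mul_le_mul ha hc (by positivity) hD0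
        have he2 : |num s₀ l| * (den (k r i) : ℤ) ≤ D * D :=
          mul_le_mul hb hd (by positivity) hD0
        push_cast
        nlinarith
      have h3 : ∏ i' ∈ Finset.univ.erase i, |((den (k r i') * den s₀ : ℕ) : ℤ)| ≤
          (((2 * D ^ 2) ^ (v + 1) : ℕ) : ℤ) := by
        calc ∏ i' ∈ Finset.univ.erase i, |((den (k r i') * den s₀ : ℕ) : ℤ)|
            ≤ ∏ i' ∈ Finset.univ.erase i, ((2 * D ^ 2 : ℕ) : ℤ) := by
              refine Finset.prod_le_prod (fun _ _ => abs_nonneg _) fun i' _ => ?_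
              rw [Nat.abs_cast]
              have := hdenle _ (hk r i')
              exact_mod_cast (by omega : den (k r i') * den s₀ ≤ 2 * D ^ 2)
          _ = (((2 * D ^ 2) ^ (v + 1) : ℕ) : ℤ) := by
              rw [Finset.prod_const, Finset.card_erase_of_mem (Finset.mem_univ i),
                Finset.card_univ, Fintype.card_fin]
              push_cast
              rfl
      calc |num (k r i) l * den s₀ - num s₀ l * den (k r i)| *
          ∏ i' ∈ Finset.univ.erase i, |((den (k r i') * den s₀ : ℕ) : ℤ)|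
          ≤ ((2 * D ^ 2 : ℕ) : ℤ) * (((2 * D ^ 2) ^ (v + 1) : ℕ) : ℤ) :=
            mul_le_mul h2 h3 (Finset.prod_nonneg fun _ _ => abs_nonneg _) (by positivity)
        _ = ((2 * D ^ 2) ^ (v + 2) : ℕ) := by
            push_cast
            ring
    refine (Finset.sum_le_sum fun i _ => h1 i).trans ?_
    rw [Finset.sum_const, Finset.card_univ, Fintype.card_fin, hQ]
    push_cast
    rw [nsmul_eq_mul]
    push_cast
    exact le_refl _
  -- conclusion
  have hcard : Fintype.card (Cl (v + 1) A B) = M := by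
    rw [Fintype.card_prod, Fintype.card_coe, hDCA, Fintype.card_fin, mul_comm]
  refine hDPF q (Cl (v + 1) A B)
    (Matrix.of fun r c => (den' r : ℤ) ^ (A - ∑ l, c.1.1 l) * (∏ l, num' r l ^ c.1.1 l) *
      ((∏ i, π (k r i) : ℕ) : ℤ) ^ (c.2 : ℕ)) (im A B y EE) (fun r => den' r ^ A) Bd (M * T')
    (fun r => pow_ne_zero _ (hden'pos r)) ?_ ?_ hdet ?_
  · intro r c
    have hc : ∑ l, c.1.1 l ≤ A := mem_Sx.1 c.1.2
    simp only [Matrix.of_apply, im]
    push_cast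
    have h1 : ∏ l, ((num' r l : ℤ) : ℤ_[q]) ^ c.1.1 l =
        (den' r : ℤ_[q]) ^ (∑ l, c.1.1 l) * ∏ l, y r l ^ c.1.1 l := by
      rw [← Finset.prod_pow_eq_pow_sum, ← Finset.prod_mul_distrib]
      refine Finset.prod_congr rfl fun l _ => ?_
      rw [← mul_pow, hdy]
    rw [h1]
    have h2 : (den' r : ℤ_[q]) ^ A =
        (den' r : ℤ_[q]) ^ (A - ∑ l, c.1.1 l) * (den' r : ℤ_[q]) ^ (∑ l, c.1.1 l) := by
      rw [← pow_add, Nat.sub_add_cancel hc]
    have h3 : EE r = ∏ i, (π (k r i) : ℤ_[q]) := by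
      rw [hEE]
      push_cast
      rfl
    rw [h2, h3]
    ring
  · intro r c
    have hc : ∑ l, c.1.1 l ≤ A := mem_Sx.1 c.1.2
    simp only [Matrix.of_apply]
    rw [abs_mul, abs_mul, abs_pow, abs_pow, Nat.abs_cast, Nat.abs_cast, Finset.abs_prod]
    have h1 : ((den' r : ℕ) : ℤ) ^ (A - ∑ l, c.1.1 l) ≤ (Q : ℤ) ^ (A - ∑ l, c.1.1 l) := by
      refine pow_le_pow_left₀ (by positivity) ?_ _
      exact_mod_cast hden'le r
    have h2 : ∏ l, |num' r l ^ c.1.1 l| ≤ (Q : ℤ) ^ (∑ l, c.1.1 l) := by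
      rw [← Finset.prod_pow_eq_pow_sum]
      refine Finset.prod_le_prod (fun _ _ => abs_nonneg _) fun l _ => ?_
      rw [abs_pow]
      exact pow_le_pow_left₀ (abs_nonneg _) (hnum'le r l) _
    have h3 : ((∏ i, π (k r i) : ℕ) : ℤ) ^ (c.2 : ℕ) ≤ (((H ^ (v + 2)) ^ B : ℕ) : ℤ) := by
      have h4 : ∏ i, π (k r i) ≤ H ^ (v + 2) := by
        calc ∏ i, π (k r i) ≤ ∏ _i : Fin (v + 2), H :=
              Finset.prod_le_prod (fun _ _ => Nat.zero_le _) fun i _ => (hπ _ (hk r i)).2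
          _ = H ^ (v + 2) := by rw [Finset.prod_const, Finset.card_univ, Fintype.card_fin]
      have h5 : (∏ i, π (k r i)) ^ (c.2 : ℕ) ≤ (H ^ (v + 2)) ^ B :=
        (Nat.pow_le_pow_left h4 _).trans
          (Nat.pow_le_pow_right (pow_pos hH1 _) c.2.2.le)
      exact_mod_cast h5
    have h6 : (0 : ℤ) ≤ ∏ l, |num' r l ^ c.1.1 l| := Finset.prod_nonneg fun _ _ => abs_nonneg _
    calc ((den' r : ℕ) : ℤ) ^ (A - ∑ l, c.1.1 l) * (∏ l, |num' r l ^ c.1.1 l|) *
          ((∏ i, π (k r i) : ℕ) : ℤ) ^ (c.2 : ℕ)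
        ≤ (Q : ℤ) ^ (A - ∑ l, c.1.1 l) * (Q : ℤ) ^ (∑ l, c.1.1 l) *
          (((H ^ (v + 2)) ^ B : ℕ) : ℤ) := by
          refine mul_le_mul (mul_le_mul h1 h2 h6 (by positivity)) h3 (by positivity)
            (by positivity)
      _ = (Bd : ℤ) := by
          rw [← pow_add, Nat.sub_add_cancel hc, hBd]
          push_cast
          rfl
  · rw [hcard, pow_mul' q M T']
    exact Nat.pow_lt_pow_left hNC' (by omega)

end Pool.Agent.H42.RD
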